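import Pool.Agent.H15.LU.Targets

/-!
# MP_812e67_ag: module END
-/

set_option autoImplicit false

namespace Pool.Agent.H5.LU

open Filter Topology Asymptotics Polynomial
open Pool.Agent.H15.LU

theorem conv_sub {W : ℕ → ℂ[X][X]} {W' : ℂ[X][X]} (h : Conv W W') {s : ℕ → ℕ}
    (hs : StrictMono s) : Conv (fun n => W (s n)) W' := by
  obtain ⟨⟨D, hD⟩, hc⟩ := h
  exact ⟨⟨D, fun n i j hij => hD (s n) i j hij⟩,
    fun i j => (hc i j).comp hs.tendsto_atTop⟩

theorem conv_of_close {Q : ℕ → ℂ[X][X]} {Q' : ℂ[X][X]}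
    (h : ∀ n : ℕ, Close (1 / ((n : ℝ) + 1)) (Q n) Q') : Conv Q Q' := by
  refine ⟨⟨9, fun n i j hij => (h n).1 i j hij⟩, fun i j => ?_⟩
  rw [tendsto_iff_norm_sub_tendsto_zero]
  exact squeeze_zero (fun n => norm_nonneg _) (fun n => (h n).2 i j)
    tendsto_one_div_add_atTop_nhds_zero_nat

theorem end_ (h1 : T_BD) (h2 : T_CVW) (h3 : T_FIN) : T_END := by
  by_contra hcon
  unfold T_END at hcon
  push Not at hcon
  have hpos : ∀ n : ℕ, (0 : ℝ) < 1 / ((n : ℝ) + 1) := fun n => by positivity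
  choose c Q R hc hc0 hQ hR β γ hd using fun n : ℕ => hcon (1 / ((n : ℝ) + 1)) (hpos n)
  have hct : Tendsto c atTop (𝓝 0) := by
    rw [tendsto_zero_iff_norm_tendsto_zero]
    exact squeeze_zero (fun n => norm_nonneg _) hc
      tendsto_one_div_add_atTop_nhds_zero_nat
  have hQc := conv_of_close hQ
  have hRc := conv_of_close hR
  have hW := h2 c Q R hct hQc hRc
  obtain ⟨s, γ', hs, hβ, hγ, hγ'⟩ := h1 _ β γ hW (fun n => by
    have := hd n 0
    simpa using this)
  exact h3 (fun n => c (s n)) (fun n => β (s n)) (fun n => γ (s n)) (fun n => Q (s n))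
    (fun n => R (s n)) γ' (hct.comp hs.tendsto_atTop) (fun n => hc0 (s n))
    (conv_sub hQc hs) (conv_sub hRc hs) hβ hγ hγ' (fun n => hd (s n))

end Pool.Agent.H5.LU
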