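import Pool.Agent.H15.LU.Targets

/-!
# MP_812e67_ag: module SQR
-/

set_option autoImplicit false

namespace Pool.Agent.H5.LU

open Filter Topology Asymptotics Polynomial
open Pool.Agent.H15.LU

theorem sqr : T_SQR := by
  intro c Q R S q
  have hw : taylor S (ww c Q R) =
      (taylor S Q) ^ 2 - C (4 * (X + C c)) * taylor S R := by
    unfold ww
    rw [map_sub, taylor_pow, taylor_mul, taylor_C]
  have hz : ∀ j : ℕ, ((C (4 * (X + C c)) * taylor S R : ℂ[X][X]).coeff j).eval (-c) = 0 := by
    intro j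
    rw [coeff_C_mul, eval_mul]
    simp
  refine ⟨?_, ?_, ?_⟩
  · rw [hw, coeff_sub, eval_sub, hz, sub_zero, pow_two, mul_coeff_zero, eval_mul, ← pow_two]
  · rw [hw, coeff_sub, eval_sub, hz, sub_zero, pow_two, coeff_mul]
    simp only [Finset.Nat.antidiagonal_succ, Finset.Nat.antidiagonal_zero]
    simp [q]
    ring
  · rw [hw, coeff_sub, eval_sub, hz, sub_zero, pow_two, coeff_mul]
    simp only [Finset.Nat.antidiagonal_succ, Finset.Nat.antidiagonal_zero]
    simp [q]
    ring

end Pool.Agent.H5.LU
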