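import Pool.Agent.H15.LU.Targets

/-!
# MP_812e67_ag: module UNI
-/

set_option autoImplicit false

namespace Pool.Agent.H5.LU

open Filter Topology Asymptotics Polynomial
open Pool.Agent.H15.LU

/-- a polynomial of degree at most `9` which is `O(|s|^10)` is zero -/
theorem poly_zero (q : ℂ[X]) (hd : q.natDegree ≤ 9)
    (h : (fun s : ℂ => q.eval s) =O[𝓝 0] fun s => ‖s‖ ^ 10) : q = 0 := by
  by_contra hq
  set m := q.natTrailingDegree with hm
  have hm9 : m ≤ 9 := (natTrailingDegree_le_natDegree q).trans hd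
  have hdvd : (X : ℂ[X]) ^ m ∣ q := by
    rw [X_pow_dvd_iff]
    intro d hd'
    exact coeff_eq_zero_of_lt_natTrailingDegree hd'
  obtain ⟨r, hr⟩ := hdvd
  have hr0 : r.eval 0 ≠ 0 := by
    have h1 : q.coeff m ≠ 0 := by
      have := trailingCoeff_nonzero_iff_nonzero.mpr hq
      simpa [trailingCoeff, hm] using this
    have h2 : q.coeff m = r.coeff 0 := by
      conv_lhs => rw [hr]
      have := coeff_X_pow_mul r m 0
      simpa using this
    rw [h2, coeff_zero_eq_eval_zero] at h1
    exact h1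
  obtain ⟨K, hK⟩ := h.bound
  have hlim : Tendsto (fun s : ℂ => ‖r.eval s‖ - K * ‖s‖ ^ (10 - m)) (𝓝[≠] 0)
      (𝓝 (‖r.eval 0‖ - K * ‖(0 : ℂ)‖ ^ (10 - m))) := by
    have hcont : Continuous fun s : ℂ => ‖r.eval s‖ - K * ‖s‖ ^ (10 - m) := by
      have := r.continuous
      fun_prop
    exact (hcont.tendsto 0).mono_left nhdsWithin_le_nhds
  have hle : ∀ᶠ s : ℂ in 𝓝[≠] 0, ‖r.eval s‖ - K * ‖s‖ ^ (10 - m) ≤ 0 := by
    filter_upwards [hK.filter_mono nhdsWithin_le_nhds, self_mem_nhdsWithin] with s hs hs0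
    have hs0' : 0 < ‖s‖ := norm_pos_iff.mpr hs0
    rw [hr] at hs
    simp only [eval_mul, eval_pow, eval_X, norm_mul, norm_pow, norm_norm] at hs
    have hsplit : ‖s‖ ^ 10 = ‖s‖ ^ m * ‖s‖ ^ (10 - m) := by
      rw [← pow_add]; congr 1; omega
    rw [hsplit] at hs
    have hpm : 0 < ‖s‖ ^ m := by positivity
    have : ‖s‖ ^ m * ‖r.eval s‖ ≤ ‖s‖ ^ m * (K * ‖s‖ ^ (10 - m)) := by
      calc _ ≤ _ := hs
        _ = _ := by ring
    have := le_of_mul_le_mul_left this hpm
    linarith
  have hfin := le_of_tendsto hlim hle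
  have h10 : 10 - m ≠ 0 := by omega
  rw [norm_zero, zero_pow h10, mul_zero, sub_zero] at hfin
  exact hr0 (norm_le_zero_iff.mp hfin)

theorem uni : T_UNI := by
  intro T hT
  have hpf : ∀ p, pf T p = 0 := by
    intro p
    set q : ℂ[X] := ∑ e : E9, C (T e * ∏ i, p i ^ e.1 i) * X ^ (∑ i, e.1 i) with hq
    have hev : ∀ s : ℂ, q.eval s = pf T (s • p) := by
      intro s
      rw [hq, eval_finsetSum]
      unfold pf
      refine Finset.sum_congr rfl fun e _ => ?_
      simp only [eval_mul, eval_C, eval_pow, eval_X, Pi.smul_apply, smul_eq_mul, mul_pow,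
        Finset.prod_mul_distrib, Finset.prod_pow_eq_pow_sum]
      ring
    have hdeg : q.natDegree ≤ 9 := by
      rw [hq]
      refine natDegree_sum_le_of_forall_le _ _ fun e _ => ?_
      exact (natDegree_C_mul_X_pow_le _ _).trans e.2
    have htend : Tendsto (fun s : ℂ => s • p) (𝓝 0) (𝓝 0) := by
      have : Continuous fun s : ℂ => s • p := by fun_prop
      simpa using this.tendsto 0
    have hO : (fun s : ℂ => q.eval s) =O[𝓝 0] fun s => ‖s‖ ^ 10 := by
      have h1 : (fun s : ℂ => pf T (s • p)) =O[𝓝 0] fun s : ℂ => ‖s • p‖ ^ 10 :=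
        hT.comp_tendsto htend
      have h2 : (fun s : ℂ => ‖s • p‖ ^ 10) =O[𝓝 0] fun s : ℂ => ‖s‖ ^ 10 := by
        refine IsBigO.of_bound (‖p‖ ^ 10) (Eventually.of_forall fun s => ?_)
        rw [norm_smul, mul_pow, norm_mul]
        simp only [norm_pow, norm_norm]
        rw [mul_comm]
      have h3 := h1.trans h2
      refine h3.congr_left fun s => (hev s).symm
    have hq0 := poly_zero q hdeg hO
    have := hev 1
    rw [hq0, eval_zero, one_smul] at this
    exact this.symm
  have htp : tp T = 0 := by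
    apply MvPolynomial.funext
    intro p
    rw [map_zero, ← hpf p]
    unfold tp pf
    rw [map_sum]
    refine Finset.sum_congr rfl fun e _ => ?_
    rw [MvPolynomial.eval_monomial]
    congr 1
    rw [Finsupp.prod_fintype _ _ (fun i => pow_zero _)]
    rfl
  funext e
  have hc : (tp T).coeff (fs e.1) = T e := by
    unfold tp
    rw [MvPolynomial.coeff_sum, Finset.sum_eq_single e]
    · rw [MvPolynomial.coeff_monomial, if_pos rfl]
    · intro e' _ hne
      rw [MvPolynomial.coeff_monomial, if_neg]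
      intro h
      apply hne
      apply Subtype.ext
      exact Finsupp.equivFunOnFinite.symm.injective h
    · intro h; exact absurd (Finset.mem_univ _) h
  rw [← hc, htp]
  simp

end Pool.Agent.H5.LU
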